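import Pool.Agent.Q57.QM.Stm

/-! # Project QM, job C3: covers of sums and products of ideals -/

set_option autoImplicit false

namespace Pool.Agent.Q128.QM

open MvPolynomial
open Pool.Agent.Q57.MC (Chart Same mulF frac)
open Pool.Agent.Q57.MD (sumF)
open Pool.Agent.Q57.QM

section spans

variable {S : Type} [CommRing S] {r r' : ℕ}

theorem span_sum (F : Fin r → S) (G : Fin r' → S) :
    Ideal.span (Set.range fun k : Fin (r + r') => Sum.elim F G (finSumFinEquiv.symm k)) =
      Ideal.span (Set.range F) ⊔ Ideal.span (Set.range G) := by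
  have h : (Set.range fun k : Fin (r + r') => Sum.elim F G (finSumFinEquiv.symm k)) =
      Set.range F ∪ Set.range G := by
    rw [← Set.Sum.elim_range]
    exact finSumFinEquiv.symm.surjective.range_comp (Sum.elim F G)
  rw [h, Ideal.span_union]

theorem span_prod (F : Fin r → S) (G : Fin r' → S) :
    Ideal.span (Set.range fun k : Fin (r * r') => F (finProdFinEquiv.symm k).1 *
      G (finProdFinEquiv.symm k).2) = Ideal.span (Set.range F) * Ideal.span (Set.range G) := by
  rw [Ideal.span_mul_span']
  congr 1
  ext x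
  rw [Set.mem_mul]
  constructor
  · rintro ⟨k, rfl⟩
    exact ⟨_, ⟨_, rfl⟩, _, ⟨_, rfl⟩, rfl⟩
  · rintro ⟨_, ⟨i, rfl⟩, _, ⟨j, rfl⟩, rfl⟩
    exact ⟨finProdFinEquiv (i, j), by simp⟩

end spans

section chart

variable {m N : ℕ}

/-- the chart in more variables, numerators and denominator multiplied by `u` -/
noncomputable def ext (e : Fin m → Fin N) (A : Chart (Fin m)) (u : MvPolynomial (Fin N) ℂ) :
    Chart (Fin N) where
  c := A.c
  r := A.r
  a t := rename e (A.a t) * u
  w := rename e A.w * u
  s t := e (A.s t)
  h := A.h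

theorem pd_eval {e : Fin m → Fin N} (he : Function.Injective e) (a : MvPolynomial (Fin m) ℂ)
    (u : MvPolynomial (Fin N) ℂ) (p : Fin N → ℂ) (i : Fin m) (ha : eval (p ∘ e) a = 0) :
    eval p (pderiv (e i) (rename e a * u)) = eval (p ∘ e) (pderiv i a) * eval p u := by
  rw [Derivation.leibniz, smul_eq_mul, smul_eq_mul, pderiv_rename he, map_add, map_mul, map_mul,
    eval_rename, eval_rename, ha]
  ring

theorem ext_mem {e : Fin m → Fin N} (he : Function.Injective e) (A : Chart (Fin m))
    (u : MvPolynomial (Fin N) ℂ) (p : Fin N → ℂ) (hA : A.Mem (p ∘ e)) (hu : eval p u ≠ 0) :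
    (ext e A u).Mem p := by
  obtain ⟨h1, h2, h3⟩ := hA
  refine ⟨?_, ?_, ?_⟩
  · change eval p (rename e A.w * u) ≠ 0
    rw [map_mul, eval_rename]
    exact mul_ne_zero h1 hu
  · intro t
    change eval p (rename e (A.a t) * u) = 0
    rw [map_mul, eval_rename, h2 t, zero_mul]
  · change (Matrix.of fun k t => eval p (pderiv (e (A.s k)) (rename e (A.a t) * u))).det ≠ 0
    have h4 : (Matrix.of fun k t => eval p (pderiv (e (A.s k)) (rename e (A.a t) * u))) =
        (eval p u) • (Matrix.of fun k t => eval (p ∘ e) (pderiv (A.s k) (A.a t))) := by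
      ext k t
      rw [Matrix.smul_apply, Matrix.of_apply, Matrix.of_apply, pd_eval he _ _ _ _ (h2 t),
        smul_eq_mul, mul_comm]
    rw [h4, Matrix.det_smul]
    exact mul_ne_zero (pow_ne_zero _ hu) h3

/-- the ring of fractions -/
theorem ext_span {e : Fin m → Fin N} {A : Chart (Fin m)} {r : ℕ}
    {f : Fin r → MvPolynomial (Fin m) ℂ} (hA : A.Fits f) (u w : MvPolynomial (Fin N) ℂ)
    (hw : w = rename e A.w * u) :
    Ideal.span (Set.range fun j => algebraMap (MvPolynomial (Fin N) ℂ) (Localization.Away w)
      (rename e (f j))) =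
    Ideal.span (Set.range fun k => aeval (fun t =>
      algebraMap (MvPolynomial (Fin N) ℂ) (Localization.Away w) (rename e (A.a t) * u) *
        IsLocalization.Away.invSelf w) (A.h k)) := by
  have h1 := Pool.Agent.Q57.MC.Same.map hA
    ((IsScalarTower.toAlgHom ℂ (MvPolynomial (Fin N) ℂ) (Localization.Away w)).comp (rename e))
    (algebraMap (MvPolynomial (Fin N) ℂ) (Localization.Away w) u * IsLocalization.Away.invSelf w)
    (by
      change algebraMap (MvPolynomial (Fin N) ℂ) (Localization.Away w) (rename e A.w) * _ = 1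
      rw [← mul_assoc, ← map_mul, ← hw]
      exact IsLocalization.Away.mul_invSelf w)
  have h2 : (fun t => algebraMap (MvPolynomial (Fin N) ℂ) (Localization.Away w)
      (rename e (A.a t) * u) * IsLocalization.Away.invSelf w) =
      fun t => ((IsScalarTower.toAlgHom ℂ (MvPolynomial (Fin N) ℂ) (Localization.Away w)).comp
        (rename e)) (A.a t) * (algebraMap (MvPolynomial (Fin N) ℂ) (Localization.Away w) u *
        IsLocalization.Away.invSelf w) := by
    funext t
    change _ = algebraMap (MvPolynomial (Fin N) ℂ) (Localization.Away w) (rename e (A.a t)) * _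
    rw [map_mul, mul_assoc]
  rw [h2]
  exact h1

end chart

section prod

variable {n n' : ℕ}

/-- the numerators -/
noncomputable def pa (A : Chart (Fin n)) (B : Chart (Fin n')) :
    Fin (A.c + B.c) → MvPolynomial (Fin (n + n')) ℂ :=
  Fin.append (fun t => rename (Fin.castAdd n') (A.a t) * rename (Fin.natAdd n) B.w)
    (fun t => rename (Fin.natAdd n) (B.a t) * rename (Fin.castAdd n') A.w)

/-- the denominator -/
noncomputable def pw (A : Chart (Fin n)) (B : Chart (Fin n')) : MvPolynomial (Fin (n + n')) ℂ :=
  rename (Fin.castAdd n') A.w * rename (Fin.natAdd n) B.w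

/-- the product of two charts -/
noncomputable def pc (A : Chart (Fin n)) (B : Chart (Fin n')) {ρ : ℕ}
    (η : Fin ρ → MvPolynomial (Fin (A.c + B.c)) ℂ) : Chart (Fin (n + n')) where
  c := A.c + B.c
  r := ρ
  a := pa A B
  w := pw A B
  s := Fin.append (fun t => Fin.castAdd n' (A.s t)) (fun t => Fin.natAdd n (B.s t))
  h := η

theorem pd_zero {m N : ℕ} (e : Fin m → Fin N) (i : Fin N) (hi : ∀ j, e j ≠ i)
    (q : MvPolynomial (Fin m) ℂ) : pderiv i (rename e q) = 0 := by
  induction q using MvPolynomial.induction_on with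
  | C a => rw [rename_C, pderiv_C]
  | add p q hp hq => rw [map_add, map_add, hp, hq, add_zero]
  | mul_X p j hp =>
    rw [map_mul, rename_X, Derivation.leibniz, hp, pderiv_X_of_ne (hi j)]
    simp

theorem pc_mem (A : Chart (Fin n)) (B : Chart (Fin n')) {ρ : ℕ}
    (η : Fin ρ → MvPolynomial (Fin (A.c + B.c)) ℂ) (p : Fin (n + n') → ℂ)
    (hA : A.Mem (p ∘ Fin.castAdd n')) (hB : B.Mem (p ∘ Fin.natAdd n)) : (pc A B η).Mem p := by
  obtain ⟨h1, h2, h3⟩ := hA
  obtain ⟨k1, k2, k3⟩ := hB
  refine ⟨?_, ?_, ?_⟩
  · change eval p (rename (Fin.castAdd n') A.w * rename (Fin.natAdd n) B.w) ≠ 0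
    rw [map_mul, eval_rename, eval_rename]
    exact mul_ne_zero h1 k1
  · intro t
    change eval p (Fin.append _ _ t) = 0
    refine Fin.addCases (fun t => ?_) (fun t => ?_) t
    · rw [Fin.append_left, map_mul, eval_rename, h2 t, zero_mul]
    · rw [Fin.append_right, map_mul, eval_rename, k2 t, zero_mul]
  · change (Matrix.of fun k t : Fin (A.c + B.c) => eval p (pderiv (Fin.append
      (fun t => Fin.castAdd n' (A.s t)) (fun t => Fin.natAdd n (B.s t)) k) (Fin.append
      (fun t => rename (Fin.castAdd n') (A.a t) * rename (Fin.natAdd n) B.w)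
      (fun t => rename (Fin.natAdd n) (B.a t) * rename (Fin.castAdd n') A.w) t))).det ≠ 0
    rw [← Matrix.det_submatrix_equiv_self (finSumFinEquiv (m := A.c) (n := B.c))]
    have h4 : ((Matrix.of fun k t : Fin (A.c + B.c) => eval p (pderiv (Fin.append
      (fun t => Fin.castAdd n' (A.s t)) (fun t => Fin.natAdd n (B.s t)) k) (Fin.append
      (fun t => rename (Fin.castAdd n') (A.a t) * rename (Fin.natAdd n) B.w)
      (fun t => rename (Fin.natAdd n) (B.a t) * rename (Fin.castAdd n') A.w) t))).submatrix
        finSumFinEquiv finSumFinEquiv) =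
      Matrix.fromBlocks
        ((eval (p ∘ Fin.natAdd n) B.w) • (Matrix.of fun k t => eval (p ∘ Fin.castAdd n')
          (pderiv (A.s k) (A.a t)))) 0 0
        ((eval (p ∘ Fin.castAdd n') A.w) • (Matrix.of fun k t => eval (p ∘ Fin.natAdd n)
          (pderiv (B.s k) (B.a t)))) := by
      ext k t
      rcases k with k | k <;> rcases t with t | t
      · simp only [Matrix.submatrix_apply, Matrix.of_apply, finSumFinEquiv_apply_left,
          Fin.append_left, Matrix.fromBlocks_apply₁₁, Matrix.smul_apply, smul_eq_mul]
        rw [pd_eval (Fin.castAdd_injective n n') _ _ _ _ (h2 t), eval_rename, mul_comm]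
      · simp only [Matrix.submatrix_apply, Matrix.of_apply, finSumFinEquiv_apply_left,
          finSumFinEquiv_apply_right, Fin.append_left, Fin.append_right,
          Matrix.fromBlocks_apply₁₂, Matrix.zero_apply]
        rw [Derivation.leibniz, smul_eq_mul, smul_eq_mul,
          pd_zero (Fin.natAdd n) (Fin.castAdd n' (A.s k)) (fun j h => by
            have := congrArg Fin.val h
            simp only [Fin.val_natAdd, Fin.val_castAdd] at this
            have := (A.s k).2
            omega) (B.a t), map_add, map_mul, map_mul, eval_rename, k2 t]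
        simp
      · simp only [Matrix.submatrix_apply, Matrix.of_apply, finSumFinEquiv_apply_left,
          finSumFinEquiv_apply_right, Fin.append_left, Fin.append_right,
          Matrix.fromBlocks_apply₂₁, Matrix.zero_apply]
        rw [Derivation.leibniz, smul_eq_mul, smul_eq_mul,
          pd_zero (Fin.castAdd n') (Fin.natAdd n (B.s k)) (fun j h => by
            have := congrArg Fin.val h
            simp only [Fin.val_natAdd, Fin.val_castAdd] at this
            have := j.2
            omega) (A.a t), map_add, map_mul, map_mul, eval_rename, h2 t]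
        simp
      · simp only [Matrix.submatrix_apply, Matrix.of_apply, finSumFinEquiv_apply_right,
          Fin.append_right, Matrix.fromBlocks_apply₂₂, Matrix.smul_apply, smul_eq_mul]
        rw [pd_eval (Fin.natAdd_injective n' n) _ _ _ _ (k2 t), eval_rename, mul_comm]
    rw [h4, Matrix.det_fromBlocks_zero₂₁, Matrix.det_smul, Matrix.det_smul]
    exact mul_ne_zero (mul_ne_zero (pow_ne_zero _ k1) h3) (mul_ne_zero (pow_ne_zero _ h1) k3)

/-- the two ideals in the ring of fractions of a product -/
theorem pc_frac1 (A : Chart (Fin n)) (B : Chart (Fin n')) (q : MvPolynomial (Fin A.c) ℂ) :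
    frac (pa A B) (pw A B) (rename (Fin.castAdd B.c) q) = aeval (fun t =>
        algebraMap (MvPolynomial (Fin (n + n')) ℂ) (Localization.Away (pw A B))
          (rename (Fin.castAdd n') (A.a t) * rename (Fin.natAdd n) B.w) *
          IsLocalization.Away.invSelf (pw A B)) q := by
  unfold frac
  rw [aeval_rename]
  congr 2
  funext t
  change algebraMap _ _ (Fin.append _ _ (Fin.castAdd B.c t)) * _ = _
  rw [Fin.append_left]

theorem pc_frac2 (A : Chart (Fin n)) (B : Chart (Fin n')) (q : MvPolynomial (Fin B.c) ℂ) :
    frac (pa A B) (pw A B) (rename (Fin.natAdd A.c) q) = aeval (fun t =>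
        algebraMap (MvPolynomial (Fin (n + n')) ℂ) (Localization.Away (pw A B))
          (rename (Fin.natAdd n) (B.a t) * rename (Fin.castAdd n') A.w) *
          IsLocalization.Away.invSelf (pw A B)) q := by
  unfold frac
  rw [aeval_rename]
  congr 2
  funext t
  change algebraMap _ _ (Fin.append _ _ (Fin.natAdd A.c t)) * _ = _
  rw [Fin.append_right]

end prod

/-- Job C3 -/
theorem qm_cvsum : StCvSum := by
  classical
  intro Γ hΓ n r n' r' f g hf hg
  obtain ⟨S, hS, hS2⟩ := hf
  obtain ⟨T, hT, hT2⟩ := hg
  refine ⟨(S ×ˢ T).image fun x => pc x.1 x.2 (sumF x.1.h x.2.h), ?_, ?_⟩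
  · intro C hC
    rw [Finset.mem_image] at hC
    obtain ⟨⟨A, B⟩, hAB, rfl⟩ := hC
    rw [Finset.mem_product] at hAB
    obtain ⟨hA, hB⟩ := hAB
    obtain ⟨hA1, hA2⟩ := hS A hA
    obtain ⟨hB1, hB2⟩ := hT B hB
    refine ⟨?_, hΓ _ _ hA2 hB2⟩
    change Ideal.span (Set.range fun j => algebraMap (MvPolynomial (Fin (n + n')) ℂ)
      (Localization.Away (pw A B)) (sumF f g j)) =
      Ideal.span (Set.range fun k => frac (pa A B) (pw A B) (sumF A.h B.h k))
    have e1 : (fun j => algebraMap (MvPolynomial (Fin (n + n')) ℂ)
        (Localization.Away (pw A B)) (sumF f g j)) =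
        fun k => Sum.elim (fun j => algebraMap (MvPolynomial (Fin (n + n')) ℂ)
            (Localization.Away (pw A B)) (rename (Fin.castAdd n') (f j)))
          (fun j => algebraMap (MvPolynomial (Fin (n + n')) ℂ)
            (Localization.Away (pw A B)) (rename (Fin.natAdd n) (g j)))
            (finSumFinEquiv.symm k) := by
      funext k
      unfold sumF
      rcases finSumFinEquiv.symm k with j | j <;> rfl
    have e2 : (fun k => frac (pa A B) (pw A B) (sumF A.h B.h k)) = fun k => Sum.elim
          (fun j => frac (pa A B) (pw A B) (rename (Fin.castAdd B.c) (A.h j)))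
          (fun j => frac (pa A B) (pw A B) (rename (Fin.natAdd A.c) (B.h j)))
          (finSumFinEquiv.symm k) := by
      funext k
      unfold sumF
      rcases finSumFinEquiv.symm k with j | j <;> rfl
    have h1 := ext_span (e := Fin.castAdd n') hA1 (rename (Fin.natAdd n) B.w) (pw A B) rfl
    have h2 := ext_span (e := Fin.natAdd n) hB1 (rename (Fin.castAdd n') A.w) (pw A B)
      (mul_comm _ _)
    rw [e1, span_sum, e2, span_sum, h1, h2]
    simp only [pc_frac1, pc_frac2]
  · intro p _ hp
    obtain ⟨A, hA, hA2⟩ := hS2 (p ∘ Fin.castAdd n') trivial fun j => by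
      have := hp (finSumFinEquiv (Sum.inl j))
      unfold sumF at this
      rw [Equiv.symm_apply_apply, Sum.elim_inl, eval_rename] at this
      exact this
    obtain ⟨B, hB, hB2⟩ := hT2 (p ∘ Fin.natAdd n) trivial fun j => by
      have := hp (finSumFinEquiv (Sum.inr j))
      unfold sumF at this
      rw [Equiv.symm_apply_apply, Sum.elim_inr, eval_rename] at this
      exact this
    exact ⟨pc A B (sumF A.h B.h), Finset.mem_image.2 ⟨(A, B), Finset.mem_product.2 ⟨hA, hB⟩, rfl⟩,
      pc_mem A B _ p hA2 hB2⟩

/-- an ideal and a unit -/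
theorem span_mul_unit {S : Type} [CommRing S] {r r' : ℕ} (F : Fin r → S) (G : Fin r' → S)
    (k : Fin r') (hk : IsUnit (G k)) :
    Ideal.span (Set.range F) * Ideal.span (Set.range G) = Ideal.span (Set.range F) := by
  have h : Ideal.span (Set.range G) = ⊤ :=
    Ideal.eq_top_of_isUnit_mem _ (Ideal.subset_span ⟨k, rfl⟩) hk
  rw [h, Ideal.mul_top]

theorem unit_left {N : ℕ} (a b : MvPolynomial (Fin N) ℂ) :
    IsUnit (algebraMap (MvPolynomial (Fin N) ℂ) (Localization.Away (a * b)) b) := by
  have h := IsLocalization.Away.algebraMap_isUnit (S := Localization.Away (a * b)) (a * b)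
  rw [map_mul] at h
  exact isUnit_of_mul_isUnit_right h

/-- Job C4 -/
theorem qm_cvmul : StCvMul := by
  classical
  intro Γ hΓ n r n' r' f g hf hg
  obtain ⟨S, hS, hS2⟩ := hf
  obtain ⟨T, hT, hT2⟩ := hg
  refine ⟨((S ×ˢ T).image fun x => pc x.1 x.2 (mulF x.1.h x.2.h)) ∪
    ((S ×ˢ Finset.univ).image fun x : Chart (Fin n) × Fin r' =>
      ext (Fin.castAdd n') x.1 (rename (Fin.natAdd n) (g x.2))) ∪
    ((T ×ˢ Finset.univ).image fun x : Chart (Fin n') × Fin r =>
      ext (Fin.natAdd n) x.1 (rename (Fin.castAdd n') (f x.2))), ?_, ?_⟩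
  · intro C hC
    rw [Finset.mem_union, Finset.mem_union, Finset.mem_image, Finset.mem_image,
      Finset.mem_image] at hC
    rcases hC with (⟨⟨A, B⟩, hAB, rfl⟩ | ⟨⟨A, k⟩, hA, rfl⟩) | ⟨⟨B, k⟩, hB, rfl⟩
    · rw [Finset.mem_product] at hAB
      obtain ⟨hA, hB⟩ := hAB
      obtain ⟨hA1, hA2⟩ := hS A hA
      obtain ⟨hB1, hB2⟩ := hT B hB
      refine ⟨?_, hΓ _ _ hA2 hB2⟩
      change Ideal.span (Set.range fun j => algebraMap (MvPolynomial (Fin (n + n')) ℂ)
        (Localization.Away (pw A B)) (mulF f g j)) =
        Ideal.span (Set.range fun k => frac (pa A B) (pw A B) (mulF A.h B.h k))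
      have e1 : (fun j => algebraMap (MvPolynomial (Fin (n + n')) ℂ)
          (Localization.Away (pw A B)) (mulF f g j)) =
          fun k => (fun j => algebraMap (MvPolynomial (Fin (n + n')) ℂ)
            (Localization.Away (pw A B)) (rename (Fin.castAdd n') (f j)))
              (finProdFinEquiv.symm k).1 *
            (fun j => algebraMap (MvPolynomial (Fin (n + n')) ℂ)
            (Localization.Away (pw A B)) (rename (Fin.natAdd n) (g j)))
              (finProdFinEquiv.symm k).2 := by
        funext k
        unfold mulF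
        rw [map_mul]
      have e2 : (fun k => frac (pa A B) (pw A B) (mulF A.h B.h k)) = fun k =>
            (fun j => frac (pa A B) (pw A B)
              (rename (Fin.castAdd B.c) (A.h j))) (finProdFinEquiv.symm k).1 *
            (fun j => frac (pa A B) (pw A B)
              (rename (Fin.natAdd A.c) (B.h j))) (finProdFinEquiv.symm k).2 := by
        funext k
        unfold mulF frac
        rw [map_mul]
      have h1 := ext_span (e := Fin.castAdd n') hA1 (rename (Fin.natAdd n) B.w) (pw A B) rfl
      have h2 := ext_span (e := Fin.natAdd n) hB1 (rename (Fin.castAdd n') A.w) (pw A B)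
        (mul_comm _ _)
      rw [e1, e2]
      refine (span_prod (fun j => algebraMap (MvPolynomial (Fin (n + n')) ℂ)
            (Localization.Away (pw A B)) (rename (Fin.castAdd n') (f j)))
        (fun j => algebraMap (MvPolynomial (Fin (n + n')) ℂ)
            (Localization.Away (pw A B)) (rename (Fin.natAdd n) (g j)))).trans ?_
      refine Eq.trans ?_ (span_prod (fun j => frac (pa A B) (pw A B)
              (rename (Fin.castAdd B.c) (A.h j)))
        (fun j => frac (pa A B) (pw A B) (rename (Fin.natAdd A.c) (B.h j)))).symm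
      rw [h1, h2]
      simp only [pc_frac1, pc_frac2]
    · rw [Finset.mem_product] at hA
      obtain ⟨hA1, hA2⟩ := hS A hA.1
      refine ⟨?_, hA2⟩
      change Ideal.span _ = Ideal.span _
      have e1 : (fun j => algebraMap (MvPolynomial (Fin (n + n')) ℂ)
          (Localization.Away (ext (Fin.castAdd n') A (rename (Fin.natAdd n) (g k))).w)
            (mulF f g j)) =
          fun k' => (fun j => algebraMap (MvPolynomial (Fin (n + n')) ℂ)
            (Localization.Away (ext (Fin.castAdd n') A (rename (Fin.natAdd n) (g k))).w)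
              (rename (Fin.castAdd n') (f j))) (finProdFinEquiv.symm k').1 *
            (fun j => algebraMap (MvPolynomial (Fin (n + n')) ℂ)
            (Localization.Away (ext (Fin.castAdd n') A (rename (Fin.natAdd n) (g k))).w)
              (rename (Fin.natAdd n) (g j))) (finProdFinEquiv.symm k').2 := by
        funext k'
        unfold mulF
        rw [map_mul]
      have h1 := ext_span (e := Fin.castAdd n') hA1 (rename (Fin.natAdd n) (g k))
        (ext (Fin.castAdd n') A (rename (Fin.natAdd n) (g k))).w rfl
      refine (congrArg (fun z => Ideal.span (Set.range z)) e1).trans ?_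
      refine (span_prod (fun j => algebraMap (MvPolynomial (Fin (n + n')) ℂ)
            (Localization.Away (ext (Fin.castAdd n') A (rename (Fin.natAdd n) (g k))).w)
              (rename (Fin.castAdd n') (f j)))
        (fun j => algebraMap (MvPolynomial (Fin (n + n')) ℂ)
            (Localization.Away (ext (Fin.castAdd n') A (rename (Fin.natAdd n) (g k))).w)
              (rename (Fin.natAdd n) (g j)))).trans ?_
      rw [span_mul_unit _ _ k (unit_left _ _), h1]
      rfl
    · rw [Finset.mem_product] at hB
      obtain ⟨hB1, hB2⟩ := hT B hB.1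
      refine ⟨?_, hB2⟩
      change Ideal.span _ = Ideal.span _
      have e1 : (fun j => algebraMap (MvPolynomial (Fin (n + n')) ℂ)
          (Localization.Away (ext (Fin.natAdd n) B (rename (Fin.castAdd n') (f k))).w)
            (mulF f g j)) =
          fun k' => (fun j => algebraMap (MvPolynomial (Fin (n + n')) ℂ)
            (Localization.Away (ext (Fin.natAdd n) B (rename (Fin.castAdd n') (f k))).w)
              (rename (Fin.castAdd n') (f j))) (finProdFinEquiv.symm k').1 *
            (fun j => algebraMap (MvPolynomial (Fin (n + n')) ℂ)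
            (Localization.Away (ext (Fin.natAdd n) B (rename (Fin.castAdd n') (f k))).w)
              (rename (Fin.natAdd n) (g j))) (finProdFinEquiv.symm k').2 := by
        funext k'
        unfold mulF
        rw [map_mul]
      have h1 := ext_span (e := Fin.natAdd n) hB1 (rename (Fin.castAdd n') (f k))
        (ext (Fin.natAdd n) B (rename (Fin.castAdd n') (f k))).w rfl
      refine (congrArg (fun z => Ideal.span (Set.range z)) e1).trans ?_
      refine (span_prod (fun j => algebraMap (MvPolynomial (Fin (n + n')) ℂ)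
            (Localization.Away (ext (Fin.natAdd n) B (rename (Fin.castAdd n') (f k))).w)
              (rename (Fin.castAdd n') (f j)))
        (fun j => algebraMap (MvPolynomial (Fin (n + n')) ℂ)
            (Localization.Away (ext (Fin.natAdd n) B (rename (Fin.castAdd n') (f k))).w)
              (rename (Fin.natAdd n) (g j)))).trans ?_
      rw [mul_comm, span_mul_unit _ _ k (unit_left _ _), h1]
      rfl
  · intro p _ hp
    have hmul : ∀ j k, eval (p ∘ Fin.castAdd n') (f j) * eval (p ∘ Fin.natAdd n) (g k) = 0 := by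
      intro j k
      have := hp (finProdFinEquiv (j, k))
      unfold mulF at this
      rw [Equiv.symm_apply_apply, map_mul, eval_rename, eval_rename] at this
      exact this
    by_cases h1 : ∀ j, eval (p ∘ Fin.castAdd n') (f j) = 0
    · obtain ⟨A, hA, hA2⟩ := hS2 (p ∘ Fin.castAdd n') trivial h1
      by_cases h2 : ∀ j, eval (p ∘ Fin.natAdd n) (g j) = 0
      · obtain ⟨B, hB, hB2⟩ := hT2 (p ∘ Fin.natAdd n) trivial h2
        refine ⟨pc A B (mulF A.h B.h), ?_, pc_mem A B _ p hA2 hB2⟩
        rw [Finset.mem_union, Finset.mem_union]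
        exact Or.inl (Or.inl (Finset.mem_image.2 ⟨(A, B), Finset.mem_product.2 ⟨hA, hB⟩, rfl⟩))
      · push Not at h2
        obtain ⟨k, hk⟩ := h2
        refine ⟨ext (Fin.castAdd n') A (rename (Fin.natAdd n) (g k)), ?_,
          ext_mem (Fin.castAdd_injective n n') A _ p hA2 (by rwa [eval_rename])⟩
        rw [Finset.mem_union, Finset.mem_union]
        exact Or.inl (Or.inr (Finset.mem_image.2
          ⟨(A, k), Finset.mem_product.2 ⟨hA, Finset.mem_univ _⟩, rfl⟩))
    · push Not at h1
      obtain ⟨k, hk⟩ := h1
      have h2 : ∀ j, eval (p ∘ Fin.natAdd n) (g j) = 0 := fun j =>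
        (mul_eq_zero.1 (hmul k j)).resolve_left hk
      obtain ⟨B, hB, hB2⟩ := hT2 (p ∘ Fin.natAdd n) trivial h2
      refine ⟨ext (Fin.natAdd n) B (rename (Fin.castAdd n') (f k)), ?_,
        ext_mem (Fin.natAdd_injective n' n) B _ p hB2 (by rwa [eval_rename])⟩
      rw [Finset.mem_union]
      exact Or.inr (Finset.mem_image.2
        ⟨(B, k), Finset.mem_product.2 ⟨hB, Finset.mem_univ _⟩, rfl⟩)

end Pool.Agent.Q128.QM
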